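import Pool.Agent.TH455.K5m

set_option autoImplicit false

/-!
# A 4-fold cover (with perfect matchings) of `K₅` minus an edge without a packing
-/

namespace Pool.Agent.Y392.LP

open Pool.Agent.TH455 Pool.Agent.TH455.K5m

def sig (u v : Fin 5) : Equiv.Perm (Fin 4) where
  toFun := sg u v
  invFun := sg v u
  left_inv := by
    have h : ∀ u v : Fin 5, ∀ i : Fin 4, sg v u (sg u v i) = i := by decide +kernel
    exact h u v
  right_inv := by
    have h : ∀ u v : Fin 5, ∀ i : Fin 4, sg u v (sg v u i) = i := by decide +kernel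
    exact h u v

theorem k5_no_packing : ∃ C : Cover K5m.G 4, ¬ C.HasPacking := by
  refine ⟨permCover K5m.G 4 sig (fun u v _ => by ext i; rfl), ?_⟩
  intro h
  obtain ⟨φ, h1, h2⟩ := permCover_packing h
  have hinj : Function.Injective (fun t => φ t 0) := by
    intro s t hst
    by_contra hne
    exact h2 0 s t hne hst
  obtain ⟨g, hg1, hg2⟩ := Function.bijective_iff_has_inverse.mp
    (Finite.injective_iff_bijective.mp hinj)
  have hginj : Function.Injective g := hg2.injective
  have hst : ∀ v, ∃ s : Fin 24, ∀ i, φ (g i) v = pm s i := by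
    intro v
    apply exists_state (fun i => φ (g i) v)
    intro i j hij
    by_contra hne
    exact h2 v (g i) (g j) (fun h => hne (hginj h)) hij
  choose st hst using hst
  have h0 : st 0 = 0 := by
    have key : ∀ s : Fin 24, (∀ i, i = pm s i) → s = 0 := by decide +kernel
    apply key
    intro i
    rw [← hst 0 i]
    exact (hg2 i).symm
  apply srch st h0
  intro u v huv
  have hne : ∀ i, sg u v (pm (st u) i) ≠ pm (st v) i := by
    intro i h
    rw [← hst u i, ← hst v i] at h
    exact h1 (g i) u v huv h.symm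
  have nb : ∀ a b : Fin 4, a ≠ b → (!(a == b)) = true := by decide
  unfold ok
  rw [nb _ _ (hne 0), nb _ _ (hne 1), nb _ _ (hne 2), nb _ _ (hne 3)]
  rfl

theorem k5_few (W : Finset (Fin 5)) (hW : W.Nonempty) :
    {e ∈ K5m.G.edgeSet | ∀ v ∈ e, v ∈ W}.ncard + 1 ≤ 2 * W.card := by
  have key : ∀ W : Finset (Fin 5), W.Nonempty →
      ((W ×ˢ W).filter (fun p => p.1 < p.2 ∧ adjB p.1 p.2 = true)).card + 1 ≤ 2 * W.card := by
    decide +kernel
  have h := key W hW
  have hsub : {e ∈ K5m.G.edgeSet | ∀ v ∈ e, v ∈ W} ⊆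
      (((W ×ˢ W).filter (fun p => p.1 < p.2 ∧ adjB p.1 p.2 = true)).image
        (fun p => s(p.1, p.2)) : Finset (Sym2 (Fin 5))) := by
    intro e
    induction e using Sym2.ind with
    | _ a b =>
      rintro ⟨h1, h2⟩
      have hab : adjB a b = true := h1
      have ha : a ∈ W := h2 a (by simp)
      have hb : b ∈ W := h2 b (by simp)
      have hne : a ≠ b := K5m.G.ne_of_adj hab
      rw [Finset.mem_coe, Finset.mem_image]
      rcases lt_or_gt_of_ne hne with hlt | hlt
      · exact ⟨(a, b), by simp [ha, hb, hlt, hab], rfl⟩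
      · have hba : adjB b a = true := (K5m.G.adj_symm (show K5m.G.Adj a b from hab))
        exact ⟨(b, a), by simp [ha, hb, hlt, hba], Sym2.eq_swap⟩
  have h3 := Set.ncard_le_ncard hsub (Finset.finite_toSet _)
  rw [Set.ncard_coe_finset] at h3
  have h4 := Finset.card_image_le (s := (W ×ˢ W).filter (fun p => p.1 < p.2 ∧ adjB p.1 p.2 = true))
    (f := fun p => s(p.1, p.2))
  omega

end Pool.Agent.Y392.LP
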