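import Pool.Agent.TH455.Mad
import Pool.Agent.TH455.Upper

set_option autoImplicit false

/-!
# More colours, infinite graphs and abstract covers

`CorrPackable G k` passes to `k + 1`, it follows for an infinite graph from its finite induced
subgraphs (compactness), and it gives packings of all abstract `k`-fold covers.
-/

namespace Pool.Agent.Y392.LP

open Pool.Agent.TH455

/-- One more colour. -/
theorem corrPackable_succ {V : Type} {G : SimpleGraph V} {k : ℕ} (hk : 1 ≤ k)
    (h : CorrPackable G k) : CorrPackable G (k + 1) := by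
  intro C
  obtain ⟨φ, h1, _⟩ := h
    { M := fun u v i j => C.M u v i.castSucc j.castSucc
      symm := fun u v i j h => C.symm u v _ _ h
      matching := fun u v huv i j j' h h' =>
        Fin.castSucc_injective _ (C.matching u v huv _ _ _ h h') }
  obtain ⟨c, hc⟩ : ∃ c : V → Fin (k + 1), ∀ u v, G.Adj u v → ¬ C.M u v (c u) (c v) :=
    ⟨fun v => (φ ⟨0, hk⟩ v).castSucc, fun u v huv => h1 _ u v huv⟩
  obtain ⟨ψ, g1, g2⟩ := h
    { M := fun u v i j => C.M u v ((c u).succAbove i) ((c v).succAbove j)
      symm := fun u v i j h => C.symm u v _ _ h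
      matching := fun u v huv i j j' h h' =>
        Fin.succAbove_right_injective (C.matching u v huv _ _ _ h h') }
  refine ⟨fun t v => Fin.cases (c v) (fun s => (c v).succAbove (ψ s v)) t, ?_, ?_⟩
  · intro t u v huv
    refine Fin.cases ?_ (fun s => ?_) t
    · exact hc u v huv
    · exact g1 s u v huv
  · intro v s t hst
    revert hst
    refine Fin.cases ?_ (fun s' => ?_) s
    · refine Fin.cases ?_ (fun t' => ?_) t
      · intro h; exact absurd rfl h
      · intro _ h
        exact Fin.succAbove_ne _ _ h.symm
    · refine Fin.cases ?_ (fun t' => ?_) t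
      · intro _ h
        exact Fin.succAbove_ne _ _ h
      · intro hst h
        exact g2 v s' t' (fun e => hst (by rw [e])) (Fin.succAbove_right_injective h)

/-- All larger numbers of colours. -/
theorem corrPackable_mono {V : Type} {G : SimpleGraph V} {k l : ℕ} (hk : 1 ≤ k) (hkl : k ≤ l)
    (h : CorrPackable G k) : CorrPackable G l := by
  induction l, hkl using Nat.le_induction with
  | base => exact h
  | succ n hn ih => exact corrPackable_succ (hk.trans hn) ih

/-- Compactness. -/
theorem corrPackable_of_finite {V : Type} {G : SimpleGraph V} {k : ℕ}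
    (h : ∀ W : Finset V, CorrPackable (G.induce (W : Set V)) k) : CorrPackable G k := by
  classical
  intro C
  have hW : ∀ W : Finset V, ∃ φ : V → Fin k → Fin k,
      (∀ u ∈ W, ∀ v ∈ W, G.Adj u v → ∀ t, ¬ C.M u v (φ u t) (φ v t)) ∧
      ∀ v ∈ W, ∀ s t, s ≠ t → φ v s ≠ φ v t := by
    intro W
    obtain ⟨φ, h1, h2⟩ := h W
      { M := fun u v i j => C.M u v i j
        symm := fun u v i j h => C.symm u v _ _ h
        matching := fun u v huv i j j' h h' => C.matching u v huv _ _ _ h h' }
    refine ⟨fun v t => if hv : v ∈ W then φ t ⟨v, hv⟩ else t, ?_, ?_⟩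
    · intro u hu v hv huv t
      simp only [dif_pos hu, dif_pos hv]
      exact h1 t ⟨u, hu⟩ ⟨v, hv⟩ huv
    · intro v hv s t hst
      simp only [dif_pos hv]
      exact h2 ⟨v, hv⟩ s t hst
  choose φ h1 h2 using hW
  obtain ⟨U, hU⟩ : ∃ U : Ultrafilter (Finset V), (U : Filter (Finset V)) ≤ Filter.atTop :=
    ⟨Ultrafilter.of Filter.atTop, Ultrafilter.of_le _⟩
  have hlim : ∀ v, ∃ a : Fin k → Fin k, ∀ᶠ W in (U : Filter (Finset V)), φ W v = a := by
    intro v
    obtain ⟨a, ha⟩ := (U.map (fun W => φ W v)).eq_pure_of_finite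
    refine ⟨a, ?_⟩
    have h3 : ({a} : Set (Fin k → Fin k)) ∈ U.map (fun W => φ W v) := by
      rw [ha]
      exact Set.mem_singleton a
    exact h3
  choose a ha using hlim
  have hmem : ∀ v, ∀ᶠ W in (U : Filter (Finset V)), v ∈ W := by
    intro v
    apply hU
    rw [Filter.mem_atTop_sets]
    exact ⟨{v}, fun W hW => hW (Finset.mem_singleton_self v)⟩
  refine ⟨fun t v => a v t, ?_, ?_⟩
  · intro t u v huv
    obtain ⟨W, e1, e2, e3, e4⟩ := ((ha u).and ((ha v).and ((hmem u).and (hmem v)))).exists
    have := h1 W u e3 v e4 huv t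
    rw [e1, e2] at this
    exact this
  · intro v s t hst
    obtain ⟨W, e1, e2⟩ := ((ha v).and (hmem v)).exists
    have := h2 W v e2 s t hst
    rw [e1] at this
    exact this

/-- Abstract covers. -/
theorem cover_of_corr {V : Type} {G : SimpleGraph V} {k : ℕ} (hk : 1 ≤ k)
    (h : CorrPackable G k) (C : Cover G k) : C.HasPacking := by
  classical
  have e : ∀ v, Fin k ≃ {x // C.p x = v} := fun v =>
    ((Nat.equivFinOfCardPos (by rw [C.card_fiber v]; omega)).trans
      (finCongr (C.card_fiber v))).symm
  have hpe : ∀ v i, C.p (e v i).1 = v := fun v i => (e v i).2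
  obtain ⟨φ, h2, h1⟩ := h
    { M := fun u v i j => C.H.Adj (e u i).1 (e v j).1
      symm := fun u v i j h => h.symm
      matching := by
        intro u v huv i j j' h h'
        obtain ⟨y, _, hy⟩ := C.matching (e u i).1 v (by rw [hpe]; exact huv)
        have a := hy _ ⟨hpe v j, h⟩
        have b := hy _ ⟨hpe v j', h'⟩
        exact (e v).injective (Subtype.ext (a.trans b.symm)) }
  refine ⟨fun t => {x | ∃ v, x = (e v (φ t v)).1}, ?_, ?_⟩
  · intro t
    refine ⟨?_, ?_⟩
    · rintro x ⟨u, rfl⟩ y ⟨v, rfl⟩ hadj
      rcases C.only _ _ hadj with h | h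
      · rw [hpe, hpe] at h
        subst h
        exact C.H.loopless.irrefl _ hadj
      · rw [hpe, hpe] at h
        exact h2 t u v h hadj
    · intro v
      refine ⟨(e v (φ t v)).1, ⟨hpe _ _, v, rfl⟩, ?_⟩
      rintro y ⟨hy, u, rfl⟩
      rw [hpe] at hy
      subst hy
      rfl
  · intro s t hst
    rw [Set.disjoint_left]
    rintro x ⟨u, rfl⟩ ⟨v, hv⟩
    have huv : u = v := by
      have := congrArg C.p hv
      rw [hpe, hpe] at this
      exact this
    subst huv
    exact h1 u s t hst ((e u).injective (Subtype.ext hv))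

/-- Induced subgraphs on finite sets of sparse graphs are sparse. -/
theorem sparse_induce {V : Type} {G : SimpleGraph V} (h : Sparse (gi G)) (W : Finset V) :
    Sparse (gi (G.induce (W : Set V))) := by
  classical
  intro X hX
  have h1 := h (X.map (Function.Embedding.subtype _)) (by simpa using hX)
  rw [Finset.card_map] at h1
  have h2 : I2 (gi G) (X.map (Function.Embedding.subtype _)) =
      I2 (gi (G.induce (W : Set V))) X := by
    unfold I2
    rw [Finset.sum_map]
    refine Finset.sum_congr rfl fun x _ => ?_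
    rw [Finset.sum_map]
    rfl
  rw [h2] at h1
  exact h1

/-- Every sparse graph, finite or infinite, and every number of colours from four on. -/
theorem corr_all {V : Type} {G : SimpleGraph V} (h : Sparse (gi G)) {k : ℕ} (hk : 4 ≤ k) :
    CorrPackable G k :=
  corrPackable_mono (by norm_num) hk
    (corrPackable_of_finite fun W => mcorr_of_sparse _ (sparse_induce h W))

end Pool.Agent.Y392.LP
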